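import Mathlib
import Pool.Agent.Lib.MP_faf25a_an.R.Space
import Pool.Agent.Lib.MP_faf25a_an.R.Pos

set_option autoImplicit false

open Cardinal

namespace Pool.Agent.Results.MP_faf25a_an.StrongLimit

universe u

/-- `E` is universally `κ`-injective: every operator into `E` defined on a closed subspace of
density character less than `κ` of a real Banach space `V` extends to `V`. -/
def UnivInjective (κ : Cardinal.{u}) (E : Type u) [NormedAddCommGroup E] [NormedSpace ℝ E] : Prop :=
  ∀ (V : Type u) [NormedAddCommGroup V] [NormedSpace ℝ V] [CompleteSpace V] (W : Submodule ℝ V),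
    IsClosed (W : Set V) → (∃ s : Set W, Dense s ∧ Cardinal.mk s < κ) →
      ∀ t : W →L[ℝ] E, ∃ T : V →L[ℝ] E, ∀ w : W, T w = t w

/-- Universal `κ`-injectivity is a 3-space property. -/
def ThreeSpace (κ : Cardinal.{u}) : Prop :=
  ∀ (X : Type u) [NormedAddCommGroup X] [NormedSpace ℝ X] [CompleteSpace X] (Y : Submodule ℝ X)
    [IsClosed (Y : Set X)], UnivInjective κ Y → UnivInjective κ (X ⧸ Y) → UnivInjective κ X

open Pool.Agent.Lib.MP_faf25a_an.R in
lemma UnivInjective.ext {κ : Cardinal.{u}} {E : Type u} [NormedAddCommGroup E] [NormedSpace ℝ E]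
    (h : UnivInjective κ E) : Ext κ E := fun V _ _ _ W hW hc t =>
  h V W hW ⟨Set.univ, dense_univ, by rwa [mk_univ]⟩ t

open Pool.Agent.Lib.MP_faf25a_an.R in
lemma aux {κ : Cardinal.{u}} (h : ThreeSpace κ) {L X : Type u} [NormedAddCommGroup X]
    [NormedSpace ℝ X] [CompleteSpace X] (π : X →L[ℝ] LO L) (hπ : Function.Surjective π)
    (h1 : UnivInjective κ π.ker) : UnivInjective κ X := by
  have : IsClosed (π.ker : Set X) := π.isClosed_ker
  refine h X π.ker h1 ?_
  rintro V _ _ _ W - - t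
  exact ext_quot π hπ π.ker rfl W t

open Pool.Agent.Lib.MP_faf25a_an.R in
theorem result (κ : Cardinal.{u}) (hκ : ℵ₀ ≤ κ) :
    ThreeSpace κ ↔ ∀ l : Cardinal.{u}, l < κ → 2 ^ l < κ := by
  constructor
  · intro h
    by_contra hn
    obtain ⟨l, ρ, h1, h2, h3, h4, h5⟩ := exists_regular hκ fun h' => hn h'.isStrongPrelimit
    obtain ⟨L, rfl⟩ : ∃ L : Type u, #L = l := ⟨l.out, mk_out l⟩
    have : Infinite L := infinite_iff.mpr h1
    obtain ⟨τ, hτ⟩ := exists_tau L
    let D : Dat L := ⟨ρ, h5, (h1.trans_lt h2).trans_le h3, by simpa using h4, τ, hτ⟩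
    obtain ⟨s, hs, hc⟩ := dense_csp (pt (L := L)) h1 (mk_Om L).le
    have hX : UnivInjective κ (XS D) := by
      refine aux (X := XS D) h (proj D) (proj_surjective D) ?_
      rintro V _ _ _ W - ⟨s, hs, hc⟩ t
      exact ext_YS D W s hs (hc.trans_le h3) t
    exact no_extension D (hX (LO L) (csp pt) (isClosed_csp _) ⟨s, hs, hc.trans_lt h2⟩ (tst D))
  · rintro h X _ _ _ Y _ h1 h2 V _ _ _ W hW ⟨s, hs, hc⟩ t
    rcases hκ.eq_or_lt with rfl | h0
    · refine ⟨0, fun w => ?_⟩
      rw [eq_zero_of_finite hs (lt_aleph0_iff_set_finite.mp hc) w]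
      simp
    · exact ext_of_strongLimit ⟨(aleph0_pos.trans h0).ne', h⟩ h0 Y h1.ext h2.ext W hW s hs hc t

end Pool.Agent.Results.MP_faf25a_an.StrongLimit
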